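import Mathlib

/-!
# PW-J: proper subgroups of `P × Z/p`, `P` a finite `p`-group
-/

set_option autoImplicit false

namespace Pool.Agent.Helper54.PW

/-- a maximal subgroup of a finite `p`-group is the kernel of a surjection onto `Z/p` -/
theorem exists_hom_of_coatom {p : ℕ} [Fact p.Prime] {Q : Type} [Group Q] [Finite Q]
    (hQ : IsPGroup p Q) (M : Subgroup Q) (hM : IsCoatom M) :
    ∃ φ : Q →* Multiplicative (ZMod p), φ.ker = M := by
  have hp : p.Prime := Fact.out
  have hnil : Group.IsNilpotent Q := hQ.isNilpotent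
  have hnormal : M.Normal :=
    Subgroup.NormalizerCondition.normal_of_coatom M Group.normalizerCondition_of_isNilpotent hM
  have hmax : ∀ a : Q ⧸ M, a ≠ 1 → Subgroup.zpowers a = ⊤ := by
    intro a ha
    have h1 : M ≤ (Subgroup.zpowers a).comap (QuotientGroup.mk' M) := by
      intro x hx
      rw [Subgroup.mem_comap]
      have : QuotientGroup.mk' M x = 1 := (QuotientGroup.eq_one_iff x).2 hx
      rw [this]
      exact Subgroup.one_mem _
    have h2 : M ≠ (Subgroup.zpowers a).comap (QuotientGroup.mk' M) := by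
      intro h
      obtain ⟨x, rfl⟩ := QuotientGroup.mk'_surjective M a
      have h3 : x ∈ (Subgroup.zpowers (QuotientGroup.mk' M x)).comap (QuotientGroup.mk' M) :=
        Subgroup.mem_comap.2 (Subgroup.mem_zpowers _)
      rw [← h] at h3
      exact ha ((QuotientGroup.eq_one_iff x).2 h3)
    have h3 := hM.2 _ (lt_of_le_of_ne h1 h2)
    rw [eq_top_iff]
    intro b _
    obtain ⟨y, rfl⟩ := QuotientGroup.mk'_surjective M b
    have h4 : y ∈ (Subgroup.zpowers a).comap (QuotientGroup.mk' M) := by
      rw [h3]; exact Subgroup.mem_top y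
    exact h4
  obtain ⟨q, hq⟩ : ∃ q, q ∉ M := by
    by_contra hcon
    push Not at hcon
    exact hM.1 ((Subgroup.eq_top_iff' M).2 hcon)
  set a : Q ⧸ M := QuotientGroup.mk' M q with ha
  have ha1 : a ≠ 1 := fun h => hq ((QuotientGroup.eq_one_iff q).1 h)
  have hcard : orderOf a = Nat.card (Q ⧸ M) := by
    rw [← Nat.card_zpowers, hmax a ha1]
    exact Subgroup.card_top
  have hR : IsPGroup p (Q ⧸ M) := hQ.to_quotient M
  have hap : a ^ p = 1 := by
    by_contra hne
    have h1 : orderOf (a ^ p) = Nat.card (Q ⧸ M) := by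
      rw [← Nat.card_zpowers, hmax _ hne]
      exact Subgroup.card_top
    have h2 : orderOf (a ^ p) = orderOf a / Nat.gcd (orderOf a) p :=
      orderOf_pow' a hp.ne_zero
    obtain ⟨k, hk⟩ := (IsPGroup.iff_orderOf.1 hR) a
    have hk0 : k ≠ 0 := by
      intro h0
      rw [h0, pow_zero] at hk
      exact ha1 (orderOf_eq_one_iff.1 hk)
    have h3 : Nat.gcd (orderOf a) p = p := by
      rw [hk]
      exact Nat.gcd_eq_right (dvd_pow_self p hk0)
    rw [h3, h1, ← hcard] at h2
    have h4 : orderOf a / p < orderOf a := Nat.div_lt_self (orderOf_pos a) hp.one_lt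
    omega
  have hcardp : Nat.card (Q ⧸ M) = p := by
    rw [← hcard]
    exact orderOf_eq_prime hap ha1
  have hcard2 : Nat.card (Multiplicative (ZMod p)) = p := by
    rw [Nat.card_congr Multiplicative.toAdd, Nat.card_zmod]
  let e : (Q ⧸ M) ≃* Multiplicative (ZMod p) := mulEquivOfPrimeCardEq hcardp hcard2
  refine ⟨e.toMonoidHom.comp (QuotientGroup.mk' M), ?_⟩
  ext x
  rw [MonoidHom.mem_ker, MonoidHom.comp_apply]
  constructor
  · intro h
    have h1 : e (QuotientGroup.mk' M x) = 1 := h
    rw [MulEquiv.map_eq_one_iff] at h1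
    exact (QuotientGroup.eq_one_iff x).1 h1
  · intro h
    have h1 : QuotientGroup.mk' M x = 1 := (QuotientGroup.eq_one_iff x).2 h
    rw [h1, map_one]

theorem exists_hom_of_ne_top {p : ℕ} [Fact p.Prime] {P : Type} [Group P] [Finite P]
    (hP : IsPGroup p P) (J : Subgroup (P × Multiplicative (ZMod p))) (hJ : J ≠ ⊤) :
    ∃ (χ : Additive P →+ ZMod p) (c : ZMod p), (χ ≠ 0 ∨ c ≠ 0) ∧
      ∀ x ∈ J, χ (Additive.ofMul x.1) + c * Multiplicative.toAdd x.2 = 0 := by
  have hQ : IsPGroup p (P × Multiplicative (ZMod p)) := by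
    obtain ⟨n, hn⟩ := hP.exists_card_eq
    have h1 : Nat.card (P × Multiplicative (ZMod p)) = p ^ (n + 1) := by
      rw [Nat.card_prod, hn, Nat.card_congr Multiplicative.toAdd, Nat.card_zmod, pow_succ]
    exact IsPGroup.of_card h1
  obtain h | ⟨M, hM, hJM⟩ := eq_top_or_exists_le_coatom J
  · exact absurd h hJ
  obtain ⟨φ, hφ⟩ := exists_hom_of_coatom hQ M hM
  let χ : Additive P →+ ZMod p :=
    { toFun := fun x => Multiplicative.toAdd (φ (Additive.toMul x, 1))
      map_zero' := by
        show Multiplicative.toAdd (φ ((1 : P), 1)) = 0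
        have : ((1 : P), (1 : Multiplicative (ZMod p))) = 1 := rfl
        rw [this, map_one]
        rfl
      map_add' := by
        intro x y
        show Multiplicative.toAdd (φ (Additive.toMul x * Additive.toMul y, 1)) = _
        have : ((Additive.toMul x * Additive.toMul y : P), (1 : Multiplicative (ZMod p))) =
          (Additive.toMul x, 1) * (Additive.toMul y, 1) := by simp
        rw [this, map_mul, toAdd_mul] }
  let f : ZMod p →+ ZMod p :=
    { toFun := fun z => Multiplicative.toAdd (φ (1, Multiplicative.ofAdd z))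
      map_zero' := by
        have : ((1 : P), Multiplicative.ofAdd (0 : ZMod p)) = 1 := rfl
        rw [this, map_one]
        rfl
      map_add' := by
        intro x y
        have : ((1 : P), Multiplicative.ofAdd (x + y)) =
          (1, Multiplicative.ofAdd x) * (1, Multiplicative.ofAdd y) := by simp
        rw [this, map_mul, toAdd_mul] }
  have hf : ∀ z, f z = f 1 * z := by
    intro z
    obtain ⟨n, rfl⟩ := ZMod.intCast_surjective z
    have h1 : ((n : ℤ) : ZMod p) = n • (1 : ZMod p) := by simp
    rw [h1, map_zsmul, zsmul_eq_mul, zsmul_eq_mul, mul_one, mul_comm]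
  have hsum : ∀ x : P × Multiplicative (ZMod p),
      Multiplicative.toAdd (φ x) = χ (Additive.ofMul x.1) + f 1 * Multiplicative.toAdd x.2 := by
    intro x
    rw [← hf]
    show _ = Multiplicative.toAdd (φ (x.1, 1)) +
      Multiplicative.toAdd (φ (1, x.2))
    rw [← toAdd_mul, ← map_mul]
    congr 2
    simp
  refine ⟨χ, f 1, ?_, ?_⟩
  · by_contra hcon
    push Not at hcon
    apply hM.1
    rw [← hφ, Subgroup.eq_top_iff']
    intro x
    rw [MonoidHom.mem_ker]
    have h1 := hsum x
    rw [hcon.1, hcon.2, zero_mul, add_zero] at h1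
    exact Multiplicative.toAdd.injective h1
  · intro x hx
    rw [← hsum x]
    have h1 : x ∈ φ.ker := by rw [hφ]; exact hJM hx
    rw [MonoidHom.mem_ker] at h1
    rw [h1]
    rfl

end Pool.Agent.Helper54.PW
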